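import Pool.Agent.W576.Defs

/-!
Witt type extension lemmas in Lorentz space (subtask Bellows-S4 of MP_1c91cf_gt).
-/

set_option autoImplicit false

namespace Pool.Agent.W867.Witt

open Pool.Agent.W576

variable {n : ℕ}

theorem lor_eq (x y : Fin (n+1) → ℝ) :
    lor x y = -(x 0 * y 0) + ∑ i : Fin n, x i.succ * y i.succ := by
  unfold lor
  rw [Fin.sum_univ_succ]
  simp [eta]

theorem lor_comm (x y : Fin (n+1) → ℝ) : lor x y = lor y x := by
  simp only [lor, mul_comm]

theorem lor_add_left (x y z : Fin (n+1) → ℝ) : lor (x + y) z = lor x z + lor y z := by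
  simp only [lor, ← Finset.sum_add_distrib, Pi.add_apply]
  exact Finset.sum_congr rfl fun i _ => by ring

theorem lor_sub_left (x y z : Fin (n+1) → ℝ) : lor (x - y) z = lor x z - lor y z := by
  simp only [lor, ← Finset.sum_sub_distrib, Pi.sub_apply]
  exact Finset.sum_congr rfl fun i _ => by ring

theorem lor_smul_left (c : ℝ) (x z : Fin (n+1) → ℝ) : lor (c • x) z = c * lor x z := by
  simp only [lor, Finset.mul_sum, Pi.smul_apply, smul_eq_mul]
  exact Finset.sum_congr rfl fun i _ => by ring

theorem lor_add_right (x y z : Fin (n+1) → ℝ) : lor x (y + z) = lor x y + lor x z := by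
  rw [lor_comm, lor_add_left, lor_comm y, lor_comm z]

theorem lor_sub_right (x y z : Fin (n+1) → ℝ) : lor x (y - z) = lor x y - lor x z := by
  rw [lor_comm, lor_sub_left, lor_comm y, lor_comm z]

theorem lor_smul_right (c : ℝ) (x z : Fin (n+1) → ℝ) : lor x (c • z) = c * lor x z := by
  rw [lor_comm, lor_smul_left, lor_comm]

/-- a nonzero vector orthogonal to a timelike vector is spacelike -/
theorem spacelike {x w : Fin (n+1) → ℝ} (hx : lor x x < 0) (h : lor x w = 0) (hw : w ≠ 0) :
    0 < lor w w := by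
  have hcs := Finset.sum_mul_sq_le_sq_mul_sq Finset.univ (fun i : Fin n => x i.succ)
    (fun i : Fin n => w i.succ)
  rw [lor_eq] at hx h ⊢
  have hx2 : 0 ≤ ∑ i : Fin n, x i.succ ^ 2 := Finset.sum_nonneg fun i _ => sq_nonneg _
  have hw2 : 0 ≤ ∑ i : Fin n, w i.succ ^ 2 := Finset.sum_nonneg fun i _ => sq_nonneg _
  have e1 : ∑ i : Fin n, x i.succ * x i.succ = ∑ i : Fin n, x i.succ ^ 2 :=
    Finset.sum_congr rfl fun i _ => by ring
  have e2 : ∑ i : Fin n, w i.succ * w i.succ = ∑ i : Fin n, w i.succ ^ 2 :=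
    Finset.sum_congr rfl fun i _ => by ring
  rw [e1] at hx
  rw [e2]
  set X := ∑ i : Fin n, x i.succ ^ 2 with hX
  set W := ∑ i : Fin n, w i.succ ^ 2 with hW
  have h1 : ∑ i : Fin n, x i.succ * w i.succ = x 0 * w 0 := by linarith
  rw [h1] at hcs
  have hx0 : 0 < x 0 ^ 2 := by nlinarith
  have hWpos : 0 < W := by
    rcases hw2.lt_or_eq with h2 | h2
    · exact h2
    · exfalso
      apply hw
      rw [← h2, mul_zero] at hcs
      have h3 : w 0 = 0 := by
        have h4 : x 0 * w 0 = 0 := by nlinarith [sq_nonneg (x 0 * w 0)]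
        rcases mul_eq_zero.1 h4 with h5 | h5
        · rw [h5] at hx0
          norm_num at hx0
        · exact h5
      have h4 : ∀ i : Fin n, w i.succ = 0 := by
        intro i
        have h5 := (Finset.sum_eq_zero_iff_of_nonneg (fun i _ => sq_nonneg (w (Fin.succ i)))).1
          (hW.symm.trans h2.symm) i (Finset.mem_univ i)
        simpa using h5
      funext i
      refine Fin.cases ?_ ?_ i
      · exact h3
      · exact h4
  nlinarith [mul_pos hx0 hWpos]

/-- the product of two future vectors is negative -/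
theorem fut_mul {x y : Fin (n+1) → ℝ} (hx : Fut x) (hy : Fut y) : lor x y < 0 := by
  obtain ⟨hx0, hx⟩ := hx
  obtain ⟨hy0, hy⟩ := hy
  have hcs := Finset.sum_mul_sq_le_sq_mul_sq Finset.univ (fun i : Fin n => x i.succ)
    (fun i : Fin n => y i.succ)
  rw [lor_eq] at hx hy ⊢
  have e1 : ∑ i : Fin n, x i.succ * x i.succ = ∑ i : Fin n, x i.succ ^ 2 :=
    Finset.sum_congr rfl fun i _ => by ring
  have e2 : ∑ i : Fin n, y i.succ * y i.succ = ∑ i : Fin n, y i.succ ^ 2 :=
    Finset.sum_congr rfl fun i _ => by ring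
  rw [e1] at hx
  rw [e2] at hy
  have hx2 : 0 ≤ ∑ i : Fin n, x i.succ ^ 2 := Finset.sum_nonneg fun i _ => sq_nonneg _
  have hy2 : 0 ≤ ∑ i : Fin n, y i.succ ^ 2 := Finset.sum_nonneg fun i _ => sq_nonneg _
  set X := ∑ i : Fin n, x i.succ ^ 2 with hX
  set W := ∑ i : Fin n, y i.succ ^ 2 with hW
  set S := ∑ i : Fin n, x i.succ * y i.succ with hS
  have h1 : S ^ 2 < (x 0 * y 0) ^ 2 := by
    have h2 : X < x 0 ^ 2 := by nlinarith
    have h3 : W < y 0 ^ 2 := by nlinarith
    calc S ^ 2 ≤ X * W := hcs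
      _ < x 0 ^ 2 * y 0 ^ 2 := by
        apply mul_lt_mul'' h2 h3 hx2 hy2
      _ = (x 0 * y 0) ^ 2 := by ring
  have h4 := abs_lt_of_sq_lt_sq h1 (by positivity)
  have h5 := (abs_lt.1 (abs_lt_of_sq_lt_sq h1 (by positivity) |> fun h => by
    simpa using h)).2
  linarith

/-- a timelike vector whose product with a future vector is negative is future -/
theorem fut_of {x y : Fin (n+1) → ℝ} (hx : Fut x) (hy : lor y y < 0) (h : lor x y < 0) :
    Fut y := by
  refine ⟨?_, hy⟩
  by_contra hcon
  push Not at hcon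
  have hy0 : y 0 ≠ 0 := by
    intro h0
    rw [lor_eq, h0] at hy
    have : 0 ≤ ∑ i : Fin n, y i.succ * y i.succ :=
      Finset.sum_nonneg fun i _ => mul_self_nonneg _
    linarith
  have hneg : Fut (-y) := by
    refine ⟨by simpa using lt_of_le_of_ne hcon hy0, ?_⟩
    have : lor (-y) (-y) = lor y y := by simp [lor]
    rw [this]
    exact hy
  have := fut_mul hx hneg
  have h2 : lor x (-y) = - lor x y := by simp [lor]
  rw [h2] at this
  linarith

theorem fut_add {x y : Fin (n+1) → ℝ} (hx : Fut x) (hy : Fut y) : Fut (x + y) := by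
  refine ⟨add_pos hx.1 hy.1, ?_⟩
  rw [lor_add_left, lor_add_right, lor_add_right, lor_comm y x]
  have := fut_mul hx hy
  have h1 := hx.2
  have h2 := hy.2
  linarith

/-- difference of two distinct future vectors of the same length is spacelike -/
theorem spacelike_sub {x y : Fin (n+1) → ℝ} (hx : Fut x) (hy : Fut y) (h : lor x x = lor y y)
    (hne : x ≠ y) : 0 < lor (x - y) (x - y) := by
  refine spacelike (fut_add hx hy).2 ?_ (sub_ne_zero.2 hne)
  rw [lor_add_left, lor_sub_right, lor_sub_right, lor_comm y x, h]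
  ring

/-- isometries -/
def IsO (g : Matrix (Fin (n+1)) (Fin (n+1)) ℝ) : Prop :=
  ∀ x y : Fin (n+1) → ℝ, lor (g.mulVec x) (g.mulVec y) = lor x y

theorem IsO.one : IsO (1 : Matrix (Fin (n+1)) (Fin (n+1)) ℝ) := by
  intro x y
  simp

theorem IsO.mul {g h : Matrix (Fin (n+1)) (Fin (n+1)) ℝ} (hg : IsO g) (hh : IsO h) :
    IsO (g * h) := by
  intro x y
  rw [← Matrix.mulVec_mulVec, ← Matrix.mulVec_mulVec, hg, hh]

/-- first basis vector -/
def e0 : Fin (n+1) → ℝ := Pi.single 0 1

theorem fut_e0 : Fut (e0 : Fin (n+1) → ℝ) := by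
  refine ⟨by simp [e0], ?_⟩
  rw [lor_eq]
  simp [e0]

theorem lor_e0 (x : Fin (n+1) → ℝ) : lor e0 x = - x 0 := by
  rw [lor_eq]
  simp [e0]

theorem mulVec_e0 (g : Matrix (Fin (n+1)) (Fin (n+1)) ℝ) : (g.mulVec e0) 0 = g 0 0 := by
  simp [e0]

theorem fut_ge0 {g : Matrix (Fin (n+1)) (Fin (n+1)) ℝ} (hg : IsO g) (h0 : 0 < g 0 0) :
    Fut (g.mulVec e0) := by
  refine ⟨by rw [mulVec_e0]; exact h0, ?_⟩
  rw [hg]
  exact fut_e0.2

theorem fut_mulVec' {g : Matrix (Fin (n+1)) (Fin (n+1)) ℝ} (hg : IsO g) (h0 : 0 < g 0 0)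
    {x : Fin (n+1) → ℝ} (hx : Fut x) : Fut (g.mulVec x) := by
  refine fut_of (fut_ge0 hg h0) ?_ ?_
  · rw [hg]; exact hx.2
  · rw [hg]; exact fut_mul fut_e0 hx

theorem pos_of_fut {g : Matrix (Fin (n+1)) (Fin (n+1)) ℝ} (hg : IsO g)
    {x : Fin (n+1) → ℝ} (hx : Fut x) (hgx : Fut (g.mulVec x)) : 0 < g 0 0 := by
  have : Fut (g.mulVec e0) := by
    refine fut_of hgx ?_ ?_
    · rw [hg]; exact fut_e0.2
    · rw [hg]; exact fut_mul hx fut_e0
  have h1 := this.1
  rwa [mulVec_e0] at h1

theorem pos_mul {g h : Matrix (Fin (n+1)) (Fin (n+1)) ℝ} (hg : IsO g) (hh : IsO h)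
    (g0 : 0 < g 0 0) (h0 : 0 < h 0 0) : 0 < (g * h) 0 0 := by
  have h1 := fut_mulVec' hg g0 (fut_ge0 hh h0)
  rw [Matrix.mulVec_mulVec] at h1
  have := h1.1
  rwa [mulVec_e0] at this

/-- reflection in the hyperplane orthogonal to `w` -/
noncomputable def refl (w : Fin (n+1) → ℝ) : Matrix (Fin (n+1)) (Fin (n+1)) ℝ :=
  1 - Matrix.replicateCol Unit ((2 / lor w w) • w) *
    Matrix.replicateRow Unit (fun j => eta j * w j)

theorem refl_mulVec (w x : Fin (n+1) → ℝ) :
    (refl w).mulVec x = x - (2 * lor w x / lor w w) • w := by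
  unfold refl
  rw [Matrix.sub_mulVec, Matrix.one_mulVec]
  congr 1
  funext i
  simp only [Matrix.mulVec, dotProduct, Matrix.mul_apply, Matrix.replicateCol_apply,
    Matrix.replicateRow_apply, Finset.univ_unique, Finset.sum_singleton, Pi.smul_apply,
    smul_eq_mul, lor]
  rw [← Finset.sum_congr rfl (fun j _ => by
    show (2 / lor w w * w i) * (eta j * (w j * x j)) = _
    simp only [lor]; ring), ← Finset.mul_sum]
  simp only [lor]
  ring

theorem refl_det {w : Fin (n+1) → ℝ} (hw : lor w w ≠ 0) : (refl w).det = -1 := by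
  unfold refl
  rw [sub_eq_add_neg, ← Matrix.neg_mul]
  have : -Matrix.replicateCol Unit ((2 / lor w w) • w) =
      Matrix.replicateCol Unit (-((2 / lor w w) • w)) := by
    ext i j
    simp
  rw [this, Matrix.det_one_add_replicateCol_mul_replicateRow]
  have h2 : (fun j => eta j * w j) ⬝ᵥ (-((2 / lor w w) • w)) = - 2 := by
    simp only [dotProduct, Pi.neg_apply, Pi.smul_apply, smul_eq_mul]
    rw [← Finset.sum_congr rfl (fun j _ => by
      show -(2 / lor w w) * (eta j * (w j * w j)) = _
      ring), ← Finset.mul_sum]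
    change -(2 / lor w w) * lor w w = -2
    field_simp
  rw [h2]
  norm_num

theorem refl_isO {w : Fin (n+1) → ℝ} (hw : lor w w ≠ 0) : IsO (refl w) := by
  intro x y
  rw [refl_mulVec, refl_mulVec]
  simp only [lor_sub_left, lor_sub_right, lor_smul_left, lor_smul_right]
  rw [lor_comm x w]
  field_simp
  ring

theorem refl_pos {w : Fin (n+1) → ℝ} (hw : 0 < lor w w) : 0 < (refl w) 0 0 := by
  have he := mulVec_e0 (refl w)
  rw [← he, refl_mulVec, lor_comm, lor_e0]
  simp only [Pi.sub_apply, Pi.smul_apply, smul_eq_mul, e0, Pi.single_eq_same]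
  have : 0 ≤ w 0 ^ 2 / lor w w := by positivity
  have h2 : 1 - 2 * -w 0 / lor w w * w 0 = 1 + 2 * (w 0 ^ 2 / lor w w) := by
    field_simp
    ring
  rw [h2]
  linarith

theorem refl_fix {w x : Fin (n+1) → ℝ} (h : lor w x = 0) : (refl w).mulVec x = x := by
  rw [refl_mulVec, h]
  simp

theorem refl_move {y z : Fin (n+1) → ℝ} (h : lor y y = lor z z)
    (hw : lor (y - z) (y - z) ≠ 0) : (refl (y - z)).mulVec y = z := by
  rw [refl_mulVec]
  have h1 : 2 * lor (y - z) y = lor (y - z) (y - z) := by
    simp only [lor_sub_left, lor_sub_right]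
    rw [lor_comm z y]
    linarith
  rw [h1, div_self hw, one_smul]
  abel

/-- a nonzero vector orthogonal to fewer than `n+1` given vectors -/
theorem exists_orth {ι : Type} [Fintype ι] (hc : Fintype.card ι < n + 1)
    (u : ι → Fin (n+1) → ℝ) : ∃ w : Fin (n+1) → ℝ, w ≠ 0 ∧ ∀ i, lor w (u i) = 0 := by
  classical
  let f : (Fin (n+1) → ℝ) →ₗ[ℝ] (ι → ℝ) :=
    { toFun := fun w i => lor w (u i)
      map_add' := by
        intro a b
        ext i
        simp [lor_add_left]
      map_smul' := by
        intro c a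
        ext i
        simp [lor_smul_left] }
  by_contra hcon
  push Not at hcon
  have hinj : Function.Injective f := by
    rw [← LinearMap.ker_eq_bot, LinearMap.ker_eq_bot']
    intro a ha
    by_contra h0
    obtain ⟨i, hi⟩ := hcon a h0
    exact hi (congrFun ha i)
  have h1 := LinearMap.finrank_le_finrank_of_injective hinj
  simp at h1
  omega

theorem witt_O {ι : Type} [Fintype ι]
    (u v : ι → Fin (n+1) → ℝ) (hu : ∀ i, Fut (u i)) (hv : ∀ i, Fut (v i))
    (h : ∀ i j, lor (u i) (u j) = lor (v i) (v j)) (s : Finset ι) :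
    ∃ g : Matrix (Fin (n+1)) (Fin (n+1)) ℝ, IsO g ∧ 0 < g 0 0 ∧ (g.det = 1 ∨ g.det = -1) ∧
      ∀ i ∈ s, g.mulVec (u i) = v i := by
  classical
  induction s using Finset.induction_on with
  | empty => exact ⟨1, IsO.one, by simp, by simp, by simp⟩
  | insert a s ha ih =>
    obtain ⟨g, hg, g0, gd, hgs⟩ := ih
    by_cases heq : g.mulVec (u a) = v a
    · refine ⟨g, hg, g0, gd, ?_⟩
      intro i hi
      rcases Finset.mem_insert.1 hi with rfl | hi
      · exact heq
      · exact hgs i hi
    · have hlen : lor (g.mulVec (u a)) (g.mulVec (u a)) = lor (v a) (v a) := by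
        rw [hg, h]
      have hsp := spacelike_sub (fut_mulVec' hg g0 (hu a)) (hv a) hlen heq
      set w := g.mulVec (u a) - v a with hw
      refine ⟨refl w * g, (refl_isO hsp.ne').mul hg, pos_mul (refl_isO hsp.ne') hg
        (refl_pos hsp) g0, ?_, ?_⟩
      · rw [Matrix.det_mul, refl_det hsp.ne']
        rcases gd with gd | gd <;> rw [gd] <;> norm_num
      · intro i hi
        rw [← Matrix.mulVec_mulVec]
        rcases Finset.mem_insert.1 hi with rfl | hi
        · exact refl_move hlen hsp.ne'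
        · rw [hgs i hi]
          apply refl_fix
          rw [hw, lor_sub_left, ← hgs i hi, hg, h, hgs i hi, sub_self]

theorem tri {a : ℕ} (u : Fin a → Fin (n+1) → ℝ) (hu : ∀ i, Fut (u i)) (han : a ≤ n) (k : ℕ)
    (hk : k ≤ a) :
    ∃ h : Matrix (Fin (n+1)) (Fin (n+1)) ℝ, IsO h ∧ 0 < h 0 0 ∧ (h.det = 1 ∨ h.det = -1) ∧
      ∀ j : Fin a, (j : ℕ) < k → ∀ i : Fin (n+1), k ≤ (i : ℕ) → h.mulVec (u j) i = 0 := by
  classical
  induction k with
  | zero => exact ⟨1, IsO.one, by simp, by simp, by simp⟩
  | succ k ih =>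
    obtain ⟨h, hh, h0, hd, htri⟩ := ih (by omega)
    have hka : k < a := hk
    set y := h.mulVec (u ⟨k, hka⟩) with hy
    have hyf : Fut y := fut_mulVec' hh h0 (hu _)
    have hkn : k < n + 1 := by omega
    let K : Fin (n+1) := ⟨k, hkn⟩
    -- tail sum
    let T : ℝ := ∑ i : Fin (n+1), if k ≤ (i : ℕ) then eta i * (y i * y i) else 0
    have hT : 0 ≤ (eta K : ℝ) * T := by
      by_cases hk0 : k = 0
      · have h1 : (eta K : ℝ) = -1 := by simp [eta, K, hk0]
        have h2 : T = lor y y := by
          simp only [T, lor, hk0]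
          simp
        rw [h1, h2]
        have := hyf.2
        linarith
      · have h1 : (eta K : ℝ) = 1 := by simp [eta, K, hk0]
        rw [h1, one_mul]
        refine Finset.sum_nonneg fun i _ => ?_
        split_ifs with hi
        · have h3 : (eta i : ℝ) = 1 := by
            have : (i : ℕ) ≠ 0 := by omega
            simp [eta, this]
          rw [h3, one_mul]
          exact mul_self_nonneg _
        · exact le_rfl
    let r : ℝ := Real.sqrt (eta K * T)
    have hr : (eta K : ℝ) * (r * r) = T := by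
      rw [Real.mul_self_sqrt hT, ← mul_assoc]
      have : (eta K : ℝ) * eta K = 1 := by
        unfold eta
        split_ifs <;> norm_num
      rw [this, one_mul]
    let z : Fin (n+1) → ℝ := fun i => if (i : ℕ) < k then y i else if i = K then r else 0
    have hzlen : lor y y = lor z z := by
      have h1 : lor z z = ∑ i : Fin (n+1), ((if k ≤ (i : ℕ) then 0 else eta i * (y i * y i)) +
          if i = K then eta K * (r * r) else 0) := by
        unfold lor
        refine Finset.sum_congr rfl fun i _ => ?_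
        by_cases h1 : (i : ℕ) < k
        · have h2 : i ≠ K := by
            rintro rfl
            simp [K] at h1
          simp [z, h1, h2]
        · by_cases h2 : i = K
          · subst h2
            simp [z, K]
          · have h3 : k ≤ (i : ℕ) := by omega
            simp [z, h1, h2, h3]
      rw [h1, Finset.sum_add_distrib, Finset.sum_ite_eq' Finset.univ K]
      simp only [Finset.mem_univ, if_true]
      rw [hr, ← Finset.sum_add_distrib]
      unfold lor
      refine Finset.sum_congr rfl fun i _ => ?_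
      split_ifs <;> simp
    have hwk : ∀ i : Fin (n+1), (i : ℕ) < k → (y - z) i = 0 := by
      intro i hi
      simp [z, hi]
    by_cases hyz : y = z
    · refine ⟨h, hh, h0, hd, ?_⟩
      intro j hj i hi
      rcases Nat.lt_succ_iff_lt_or_eq.1 hj with hj | hj
      · exact htri j hj i (by omega)
      · have h1 : j = ⟨k, hka⟩ := Fin.ext hj
        rw [h1, ← hy, hyz]
        have h2 : ¬ (i : ℕ) < k := by omega
        have h3 : i ≠ K := by
          rintro rfl
          simp [K] at hi
        simp [z, h2, h3]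
    · have hsp : 0 < lor (y - z) (y - z) := by
        by_cases hk0 : k = 0
        · refine spacelike_sub hyf ?_ hzlen hyz
          refine ⟨?_, by rw [← hzlen]; exact hyf.2⟩
          have h1 : z 0 = r := by
            have h2 : (0 : Fin (n+1)) = K := Fin.ext (by simp [K, hk0])
            have h3 : ¬ ((0 : Fin (n+1)) : ℕ) < k := by simp [hk0]
            simp only [z, if_neg h3, if_pos h2]
          rw [h1]
          apply Real.sqrt_pos.2
          rcases hT.lt_or_eq with h2 | h2
          · exact h2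
          · exfalso
            have h3 : T = 0 := by
              have h4 : (eta K : ℝ) ≠ 0 := by
                unfold eta
                split_ifs <;> norm_num
              rcases mul_eq_zero.1 h2.symm with h5 | h5
              · exact absurd h5 h4
              · exact h5
            have h4 : T = lor y y := by
              simp only [T, lor, hk0]
              simp
            have := hyf.2
            rw [← h4, h3] at this
            exact lt_irrefl _ this
        · refine spacelike (x := e0) fut_e0.2 ?_ (sub_ne_zero.2 hyz)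
          rw [lor_e0, hwk 0 (by simp; omega), neg_zero]
      refine ⟨refl (y - z) * h, (refl_isO hsp.ne').mul hh, pos_mul (refl_isO hsp.ne') hh
        (refl_pos hsp) h0, ?_, ?_⟩
      · rw [Matrix.det_mul, refl_det hsp.ne']
        rcases hd with gd | gd <;> rw [gd] <;> norm_num
      · intro j hj i hi
        rw [← Matrix.mulVec_mulVec]
        rcases Nat.lt_succ_iff_lt_or_eq.1 hj with hj | hj
        · rw [refl_fix, htri j hj i (by omega)]
          unfold lor
          refine Finset.sum_eq_zero fun l _ => ?_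
          by_cases hl : (l : ℕ) < k
          · rw [hwk l hl]
            simp
          · rw [htri j hj l (by omega)]
            simp
        · have h1 : j = ⟨k, hka⟩ := Fin.ext hj
          rw [h1, ← hy, refl_move hzlen hsp.ne']
          have h2 : ¬ (i : ℕ) < k := by omega
          have h3 : i ≠ K := by
            rintro rfl
            simp [K] at hi
          simp [z, h2, h3]

theorem IsO.isSO {g : Matrix (Fin (n+1)) (Fin (n+1)) ℝ} (hg : IsO g) (hd : g.det = 1) : IsSO g :=
  ⟨hg, hd⟩

end Pool.Agent.W867.Witt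

namespace Pool.Agent.W867

open Pool.Agent.W576 Pool.Agent.W867.Witt

theorem fut_mulVec {n : ℕ} (g : Matrix (Fin (n+1)) (Fin (n+1)) ℝ) (hg : IsSO g) (h0 : 0 < g 0 0)
    (x : Fin (n+1) → ℝ) (hx : Fut x) : Fut (g.mulVec x) :=
  fut_mulVec' hg.1 h0 hx

theorem witt {n : ℕ} {ι : Type} [Fintype ι] [Nonempty ι] (hc : Fintype.card ι < n + 1)
    (u v : ι → Fin (n+1) → ℝ) (hu : ∀ i, Fut (u i)) (hv : ∀ i, Fut (v i))
    (h : ∀ i j, lor (u i) (u j) = lor (v i) (v j)) :
    ∃ g : Matrix (Fin (n+1)) (Fin (n+1)) ℝ, IsSO g ∧ 0 < g 0 0 ∧ ∀ i, g.mulVec (u i) = v i := by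
  classical
  obtain ⟨g, hg, g0, gd, hgs⟩ := witt_O u v hu hv h Finset.univ
  rcases gd with gd | gd
  · exact ⟨g, ⟨hg, gd⟩, g0, fun i => hgs i (Finset.mem_univ i)⟩
  · obtain ⟨w, hw0, hw⟩ := exists_orth hc v
    obtain ⟨i₀⟩ := ‹Nonempty ι›
    have hsp : 0 < lor w w := spacelike (hv i₀).2 (by rw [lor_comm]; exact hw i₀) hw0
    refine ⟨refl w * g, ⟨(refl_isO hsp.ne').mul hg, ?_⟩, pos_mul (refl_isO hsp.ne') hg
      (refl_pos hsp) g0, ?_⟩
    · rw [Matrix.det_mul, refl_det hsp.ne', gd]
      norm_num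
    · intro i
      rw [← Matrix.mulVec_mulVec, hgs i (Finset.mem_univ i)]
      exact refl_fix (hw i)

theorem witt_pad {a b n : ℕ} (hab : a ≤ b) (hb : b < n + 1) (u : Fin a → Fin (n+1) → ℝ)
    (hu : ∀ i, Fut (u i)) :
    ∃ g : Matrix (Fin (n+1)) (Fin (n+1)) ℝ, IsSO g ∧ 0 < g 0 0 ∧
      ∃ x : Fin a → Fin b → ℝ, ∀ i, u i = g.mulVec (pad (x i)) := by
  classical
  rcases Nat.eq_zero_or_pos a with ha | ha
  · subst ha
    exact ⟨1, ⟨IsO.one, by simp⟩, by simp, fun i => i.elim0, fun i => i.elim0⟩
  -- an isometry of determinant one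
  obtain ⟨h, hh, h0, hd, htri⟩ : ∃ h : Matrix (Fin (n+1)) (Fin (n+1)) ℝ, IsO h ∧ 0 < h 0 0 ∧
      h.det = 1 ∧ ∀ j : Fin a, ∀ i : Fin (n+1), a ≤ (i : ℕ) → h.mulVec (u j) i = 0 := by
    obtain ⟨h, hh, h0, hd, htri⟩ := tri u hu (by omega) a le_rfl
    rcases hd with hd | hd
    · exact ⟨h, hh, h0, hd, fun j i hi => htri j j.2 i hi⟩
    · let w : Fin (n+1) → ℝ := Pi.single (Fin.last n) 1
      have hn0 : n ≠ 0 := by omega
      have hw : ∀ x : Fin (n+1) → ℝ, lor w x = x (Fin.last n) := by
        intro x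
        unfold lor
        rw [Finset.sum_eq_single (Fin.last n)]
        · simp [w, eta, hn0]
        · intro i _ hi
          simp [w, Pi.single_eq_of_ne hi]
        · simp
      have hsp : 0 < lor w w := by
        rw [hw]
        simp [w]
      refine ⟨refl w * h, (refl_isO hsp.ne').mul hh, pos_mul (refl_isO hsp.ne') hh
        (refl_pos hsp) h0, ?_, ?_⟩
      · rw [Matrix.det_mul, refl_det hsp.ne', hd]
        norm_num
      · intro j i hi
        rw [← Matrix.mulVec_mulVec, refl_fix, htri j j.2 i hi]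
        rw [hw]
        exact htri j j.2 _ (by simp; omega)
  have hu' : IsUnit h.det := by rw [hd]; exact isUnit_one
  have hgh : h⁻¹ * h = 1 := Matrix.nonsing_inv_mul h hu'
  have hhg : h * h⁻¹ = 1 := Matrix.mul_nonsing_inv h hu'
  have hg : IsO h⁻¹ := by
    intro x y
    rw [← hh, Matrix.mulVec_mulVec, Matrix.mulVec_mulVec, hhg, Matrix.one_mulVec,
      Matrix.one_mulVec]
  refine ⟨h⁻¹, ⟨hg, ?_⟩, ?_, fun j i => h.mulVec (u j) (Fin.castLE (by omega) i), ?_⟩
  · rw [Matrix.det_nonsing_inv, hd]
    simp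
  · refine pos_of_fut hg (fut_ge0 hh h0) ?_
    rw [Matrix.mulVec_mulVec, hgh, Matrix.one_mulVec]
    exact fut_e0
  · intro j
    have h1 : (pad (fun i : Fin b => h.mulVec (u j) (Fin.castLE (by omega) i)) :
        Fin (n+1) → ℝ) = h.mulVec (u j) := by
      funext i
      unfold pad
      split_ifs with hi
      · rfl
      · exact (htri j i (by omega)).symm
    rw [h1, Matrix.mulVec_mulVec, hgh, Matrix.one_mulVec]

theorem witt_pad_basis {b n : ℕ} (hb2 : 2 ≤ b) (hb : b < n + 1) (u : Fin b → Fin (n+1) → ℝ)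
    (hu : ∀ i, Fut (u i)) (hli : LinearIndependent ℝ u) :
    ∃ g : Matrix (Fin (n+1)) (Fin (n+1)) ℝ, IsSO g ∧ 0 < g 0 0 ∧
      ∃ x : Fin b → Fin b → ℝ, (∀ i, u i = g.mulVec (pad (x i))) ∧ 0 < (Matrix.of x).det := by
  classical
  obtain ⟨g, hg, g0, x, hx⟩ := witt_pad le_rfl hb u hu
  -- the determinant is nonzero
  have hdet : (Matrix.of x).det ≠ 0 := by
    let P : (Fin b → ℝ) →ₗ[ℝ] (Fin (n+1) → ℝ) :=
      { toFun := fun y => pad y
        map_add' := by
          intro p q
          funext i
          simp only [pad, Pi.add_apply]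
          split_ifs <;> simp
        map_smul' := by
          intro c p
          funext i
          simp only [pad, Pi.smul_apply, smul_eq_mul, RingHom.id_apply]
          split_ifs <;> simp }
    have h1 : u = (Matrix.mulVecLin g ∘ₗ P) ∘ x := by
      funext i
      rw [hx i]
      rfl
    rw [h1] at hli
    have h2 : LinearIndependent ℝ x := LinearIndependent.of_comp _ hli
    have h3 := Matrix.linearIndependent_rows_iff_isUnit (A := Matrix.of x) |>.1 (by
      exact h2)
    rw [Matrix.isUnit_iff_isUnit_det] at h3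
    exact h3.ne_zero
  rcases lt_or_gt_of_ne hdet with hneg | hpos
  · -- flip the coordinates `b-1` and `n`
    let ε : Fin (n+1) → ℝ := fun i => if (i : ℕ) = b - 1 ∨ (i : ℕ) = n then -1 else 1
    have hε : ∀ i, ε i * ε i = 1 := by
      intro i
      simp only [ε]
      split_ifs <;> norm_num
    let D : Matrix (Fin (n+1)) (Fin (n+1)) ℝ := Matrix.diagonal ε
    have hD : ∀ y : Fin (n+1) → ℝ, D.mulVec y = fun i => ε i * y i := by
      intro y
      funext i
      simp [D, Matrix.mulVec_diagonal]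
    have hDO : IsO D := by
      intro p q
      rw [hD, hD]
      unfold lor
      refine Finset.sum_congr rfl fun i _ => ?_
      have := hε i
      calc eta i * (ε i * p i * (ε i * q i)) = eta i * ((ε i * ε i) * (p i * q i)) := by ring
        _ = _ := by rw [this, one_mul]
    have hDdet : D.det = 1 := by
      simp only [D, Matrix.det_diagonal]
      have h1 : ∀ i : Fin (n+1), ε i = (if i = ⟨b - 1, by omega⟩ then -1 else 1) *
          (if i = Fin.last n then -1 else 1) := by
        intro i
        have e1 : (i = (⟨b - 1, by omega⟩ : Fin (n+1))) ↔ (i : ℕ) = b - 1 := by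
          rw [Fin.ext_iff]
        have e2 : (i = Fin.last n) ↔ (i : ℕ) = n := by
          rw [Fin.ext_iff]
          simp
        simp only [ε, e1, e2]
        by_cases c1 : (i : ℕ) = b - 1
        · have c2 : (i : ℕ) ≠ n := by omega
          simp [c1, c2]
          intro h
          omega
        · by_cases c2 : (i : ℕ) = n <;> simp [c1, c2]
          intro h
          omega
      rw [Finset.prod_congr rfl fun i _ => h1 i, Finset.prod_mul_distrib]
      simp
    have hD0 : 0 < D 0 0 := by
      simp only [D, Matrix.diagonal_apply_eq, ε]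
      have h1 : ¬ (((0 : Fin (n+1)) : ℕ) = b - 1 ∨ ((0 : Fin (n+1)) : ℕ) = n) := by
        simp
        omega
      rw [if_neg h1]
      exact one_pos
    let x' : Fin b → Fin b → ℝ := fun i j => (if (j : ℕ) = b - 1 then -1 else 1) * x i j
    refine ⟨g * D, ⟨IsO.mul hg.1 hDO, by rw [Matrix.det_mul, hg.2, hDdet, one_mul]⟩,
      pos_mul hg.1 hDO g0 hD0, x', ?_, ?_⟩
    · intro i
      rw [hx i, ← Matrix.mulVec_mulVec, hD]
      congr 1
      funext l
      simp only [pad, x', ε]
      split_ifs with h1 h2 h3 h3 <;> simp_all <;> omega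
    · have h1 : Matrix.of x' = Matrix.of x *
          Matrix.diagonal (fun j : Fin b => if (j : ℕ) = b - 1 then (-1 : ℝ) else 1) := by
        ext i j
        simp [x', Matrix.mul_diagonal, mul_comm]
      rw [h1, Matrix.det_mul, Matrix.det_diagonal]
      have h2 : ∏ j : Fin b, (if (j : ℕ) = b - 1 then (-1 : ℝ) else 1) = -1 := by
        have h3 : ∀ j : Fin b, (if (j : ℕ) = b - 1 then (-1 : ℝ) else 1) =
            if j = ⟨b - 1, by omega⟩ then -1 else 1 := by
          intro j
          have e1 : (j = (⟨b - 1, by omega⟩ : Fin b)) ↔ (j : ℕ) = b - 1 := by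
            rw [Fin.ext_iff]
          simp only [e1]
        rw [Finset.prod_congr rfl fun j _ => h3 j]
        simp
      rw [h2]
      linarith
  · exact ⟨g, hg, g0, x, hx, hpos⟩

end Pool.Agent.W867
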