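import Pool.Agent.W489.Stubs

/-!
`Yo Y pr δ → Sp δ` is a covering map when `Cov Y pr δ e`.
-/

set_option autoImplicit false

open Metric Set Topology

namespace Pool.Agent.W867

open H113G

/-- a continuous map with finitely many disjoint local sections that exhaust the preimage is a
covering map -/
theorem isCoveringMap_of_sections {E X : Type*} [TopologicalSpace E] [T2Space E]
    [TopologicalSpace X] (q : E → X) (hq : Continuous q) {e : ℕ}
    (h : ∀ x, ∃ U : Set X, IsOpen U ∧ x ∈ U ∧ ∃ s : Fin e → U → E, (∀ i, Continuous (s i)) ∧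
      (∀ i u, q (s i u) = u) ∧ (∀ u, Function.Injective (fun i => s i u)) ∧
      ∀ y, ∀ hy : q y ∈ U, ∃ i, s i ⟨q y, hy⟩ = y) : IsCoveringMap q := by
  classical
  intro x
  obtain ⟨U, hU, hxU, s, hs, hqs, hinj, hex⟩ := h x
  have hex' : ∀ y : q ⁻¹' U, ∃ i, s i ⟨q y.1, y.2⟩ = y.1 := fun y => hex y.1 y.2
  choose idx hidx using hex'
  have hidxc : Continuous idx := by
    rw [continuous_iff_isClosed]
    intro T _
    have hT : idx ⁻¹' T = ⋃ i ∈ T, {y : q ⁻¹' U | s i ⟨q y.1, y.2⟩ = y.1} := by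
      ext y
      simp only [mem_preimage, mem_iUnion, mem_ofPred_eq, exists_prop]
      constructor
      · intro hy
        exact ⟨idx y, hy, hidx y⟩
      · rintro ⟨i, hi, hiy⟩
        have : idx y = i := by
          apply hinj ⟨q y.1, y.2⟩
          simp only
          rw [hidx y, hiy]
        rwa [this]
    rw [hT]
    refine (Set.toFinite T).isClosed_biUnion fun i _ => ?_
    refine isClosed_eq ?_ continuous_subtype_val
    exact (hs i).comp ((hq.comp continuous_subtype_val).subtype_mk _)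
  have hev : IsEvenlyCovered q x (Fin e) := by
    refine ⟨inferInstance, U, hxU, hU, hU.preimage hq, ?_⟩
    refine ⟨{ toFun := fun y => (⟨q y.1, y.2⟩, idx y)
              invFun := fun p => ⟨s p.2 p.1, by
                simp only [mem_preimage, hqs]; exact p.1.2⟩
              left_inv := ?_
              right_inv := ?_
              continuous_toFun := ?_
              continuous_invFun := ?_ }, ?_⟩
    · intro y
      exact Subtype.ext (hidx y)
    · rintro ⟨u, i⟩
      have hu : (⟨q (s i u), by rw [hqs]; exact u.2⟩ : U) = u := Subtype.ext (hqs i u)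
      refine Prod.ext hu ?_
      apply hinj u
      simp only
      have := hidx ⟨s i u, by simp only [mem_preimage, hqs]; exact u.2⟩
      simp only [hu] at this
      exact this
    · exact ((hq.comp continuous_subtype_val).subtype_mk _).prodMk hidxc
    · refine Continuous.subtype_mk ?_ _
      have : Continuous fun p : Fin e × U => s p.1 p.2 := by
        rw [continuous_prod_of_discrete_left]
        intro i
        exact hs i
      exact this.comp continuous_swap
    · intro y
      rfl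
  exact hev.to_isEvenlyCovered_preimage

/-- the covering `Yo → Sp` -/
theorem isCoveringMap_qY {m k e : ℕ} {Y : Set (Fin m → ℂ)} {pr : (Fin m → ℂ) → (Fin k → ℂ)}
    {δ : MvPolynomial (Fin k) ℂ} (hC : Cov Y pr δ e) : IsCoveringMap (qY Y pr δ) := by
  have hq : Continuous (qY Y pr δ) :=
    (hC.diff.continuous.comp continuous_subtype_val).subtype_mk _
  refine isCoveringMap_of_sections (e := e) (qY Y pr δ) hq ?_
  intro z
  obtain ⟨r, hr, s, hs, hall⟩ := hC.sections z.1 z.2
  refine ⟨{z' | z'.1 ∈ ball z.1 r}, isOpen_ball.preimage continuous_subtype_val,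
    mem_ball_self hr, ?_⟩
  have hmem : ∀ i, ∀ z' ∈ ball z.1 r, s i z' ∈ Y ∧ pr (s i z') = z' := by
    intro i z' hz'
    have : s i z' ∈ {y | y ∈ Y ∧ pr y = z'} := by
      rw [(hall z' hz').2.2]
      exact ⟨i, rfl⟩
    exact this
  refine ⟨fun i u => ⟨s i u.1.1, (hmem i u.1.1 u.2).1, by
      rw [(hmem i u.1.1 u.2).2]; exact u.1.2⟩, ?_, ?_, ?_, ?_⟩
  · intro i
    refine Continuous.subtype_mk ?_ _
    have h1 : ContinuousOn (s i) (ball z.1 r) := (hs i).continuousOn
    exact h1.comp_continuous (continuous_subtype_val.comp continuous_subtype_val) fun u => u.2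
  · intro i u
    exact Subtype.ext (hmem i u.1.1 u.2).2
  · intro u i j hij
    exact (hall u.1.1 u.2).2.1 (congrArg Subtype.val hij)
  · intro y hy
    have h1 : y.1 ∈ {y' | y' ∈ Y ∧ pr y' = pr y.1} := ⟨y.2.1, rfl⟩
    rw [(hall (pr y.1) hy).2.2] at h1
    obtain ⟨i, hi⟩ := h1
    exact ⟨i, Subtype.ext hi⟩

/-- over a simply connected space mapped to `{δ ≠ 0}` the covering is trivial -/
theorem exists_sections {m k e : ℕ} {Y : Set (Fin m → ℂ)} {pr : (Fin m → ℂ) → (Fin k → ℂ)}
    {δ : MvPolynomial (Fin k) ℂ} (hC : Cov Y pr δ e) {A : Type*} [TopologicalSpace A]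
    [SimplyConnectedSpace A] [LocallyPathConnectedSpace A] (φ : A → (Fin k → ℂ))
    (hφ : Continuous φ) (h0 : ∀ a, MvPolynomial.eval (φ a) δ ≠ 0) :
    ∃ σ : Fin e → A → (Fin m → ℂ), (∀ i, Continuous (σ i)) ∧
      ∀ a, Function.Injective (fun i => σ i a) ∧
        {y | y ∈ Y ∧ pr y = φ a} = Set.range (fun i => σ i a) := by
  classical
  have hcov := isCoveringMap_qY hC
  let Φ : C(A, Sp δ) := ⟨fun a => ⟨φ a, h0 a⟩, hφ.subtype_mk _⟩
  obtain ⟨a₀⟩ : Nonempty A := inferInstance
  obtain ⟨r, hr, s, hs, hall⟩ := hC.sections (φ a₀) (h0 a₀)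
  obtain ⟨-, hinj, hfib⟩ := hall (φ a₀) (mem_ball_self hr)
  have hmem : ∀ i, s i (φ a₀) ∈ Y ∧ pr (s i (φ a₀)) = φ a₀ := by
    intro i
    have : s i (φ a₀) ∈ {y | y ∈ Y ∧ pr y = φ a₀} := by
      rw [hfib]
      exact ⟨i, rfl⟩
    exact this
  let e₀ : Fin e → Yo Y pr δ := fun i => ⟨s i (φ a₀), (hmem i).1, by
    rw [(hmem i).2]; exact h0 a₀⟩
  have he₀ : ∀ i, qY Y pr δ (e₀ i) = Φ a₀ := fun i => Subtype.ext (hmem i).2
  have hlift : ∀ i, ∃ F : C(A, Yo Y pr δ), F a₀ = e₀ i ∧ qY Y pr δ ∘ F = Φ := fun i =>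
    (hcov.existsUnique_continuousMap_lifts Φ a₀ (e₀ i) (he₀ i)).exists
  choose F hF0 hF using hlift
  have hFa : ∀ i a, pr (F i a).1 = φ a := fun i a => congrArg Subtype.val (congrFun (hF i) a)
  refine ⟨fun i a => (F i a).1, fun i => continuous_subtype_val.comp (F i).continuous, ?_⟩
  intro a
  refine ⟨?_, ?_⟩
  · intro i j hij
    have h1 : F i a = F j a := Subtype.ext hij
    have h2 : (F i : A → Yo Y pr δ) = F j :=
      hcov.eq_of_comp_eq (F i).continuous (F j).continuous (by rw [hF i, hF j]) a h1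
    have h3 : e₀ i = e₀ j := by rw [← hF0 i, ← hF0 j, h2]
    exact hinj (congrArg Subtype.val h3)
  · ext y
    constructor
    · rintro ⟨hyY, hy⟩
      let y' : Yo Y pr δ := ⟨y, hyY, by rw [hy]; exact h0 a⟩
      obtain ⟨G, hG0, hG⟩ := (hcov.existsUnique_continuousMap_lifts Φ a y'
        (Subtype.ext hy)).exists
      have h1 : (G a₀).1 ∈ {y | y ∈ Y ∧ pr y = φ a₀} :=
        ⟨(G a₀).2.1, congrArg Subtype.val (congrFun hG a₀)⟩
      rw [hfib] at h1
      obtain ⟨i, hi⟩ := h1
      have h2 : G a₀ = F i a₀ := by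
        rw [hF0 i]
        exact Subtype.ext hi.symm
      have h3 : (G : A → Yo Y pr δ) = F i :=
        hcov.eq_of_comp_eq G.continuous (F i).continuous (by rw [hG, hF i]) a₀ h2
      refine ⟨i, ?_⟩
      simp only
      rw [← h3, hG0]
    · rintro ⟨i, rfl⟩
      exact ⟨(F i a).2.1, hFa i a⟩

/-- the index of a section is constant on a connected space -/
theorem idx_const {W : Type*} [TopologicalSpace W] [PreconnectedSpace W] {E : Type*}
    [TopologicalSpace E] [T2Space E] {e : ℕ} (u : W → E) (w : Fin e → W → E) (hu : Continuous u)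
    (hw : ∀ i, Continuous (w i)) (hinj : ∀ t, Function.Injective (fun i => w i t))
    (hr : ∀ t, ∃ i, w i t = u t) (t₀ : W) (i : Fin e) (h0 : w i t₀ = u t₀) :
    ∀ t, w i t = u t := by
  classical
  have h1 : IsClosed {t | w i t = u t} := isClosed_eq (hw i) hu
  have h2 : {t | w i t = u t}ᶜ = ⋃ j ∈ {j : Fin e | j ≠ i}, {t | w j t = u t} := by
    ext t
    simp only [mem_compl_iff, mem_ofPred_eq, mem_iUnion, exists_prop]
    constructor
    · intro ht
      obtain ⟨j, hj⟩ := hr t
      exact ⟨j, fun hji => ht (hji ▸ hj), hj⟩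
    · rintro ⟨j, hji, hj⟩ hi
      exact hji (hinj t (hj.trans hi.symm))
  have h3 : IsClosed {t | w i t = u t}ᶜ := by
    rw [h2]
    exact (Set.toFinite _).isClosed_biUnion fun j _ => isClosed_eq (hw j) hu
  have h4 : IsClopen {t | w i t = u t} := ⟨h1, by simpa using h3.isOpen_compl⟩
  rcases isClopen_iff.1 h4 with h | h
  · exact absurd h0 (by
      have : t₀ ∉ {t | w i t = u t} := by rw [h]; simp
      exact this)
  · intro t
    have : t ∈ {t | w i t = u t} := by rw [h]; simp
    exact this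

end Pool.Agent.W867
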