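import Pool.Agent.W867.GoodCover
import Pool.Agent.W867.CovMap

/-!
Subtask T7 of MP_9bd952_ag: finite rank on a line.
-/

set_option autoImplicit false

open Metric Set Topology

namespace Pool.Agent.W867

open H113G

theorem hasLog_of_finite {E : Type*} [TopologicalSpace E] [T1Space E] {A : Set E} (hA : A.Finite)
    (g : E → ℂ) (hg : ∀ y ∈ A, g y ≠ 0) : HasLog A g :=
  ⟨fun y => Complex.log (g y), hA.continuousOn _, fun y hy => Complex.exp_log (hg y hy)⟩

/-- one of the four open half planes bounded by the vertical or horizontal line through `a` -/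
def half (a : ℂ) (j : Fin 4) : Set ℂ :=
  if j = 0 then {t | a.re < t.re} else if j = 1 then {t | t.re < a.re}
  else if j = 2 then {t | a.im < t.im} else {t | t.im < a.im}

theorem isOpen_half (a : ℂ) (j : Fin 4) : IsOpen (half a j) := by
  unfold half
  split_ifs
  · exact isOpen_lt continuous_const Complex.continuous_re
  · exact isOpen_lt Complex.continuous_re continuous_const
  · exact isOpen_lt continuous_const Complex.continuous_im
  · exact isOpen_lt Complex.continuous_im continuous_const

theorem convex_half (a : ℂ) (j : Fin 4) : Convex ℝ (half a j) := by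
  unfold half
  split_ifs
  · exact convex_halfSpace_re_gt _
  · exact convex_halfSpace_re_lt _
  · exact convex_halfSpace_im_gt _
  · exact convex_halfSpace_im_lt _

theorem notMem_half (a : ℂ) (j : Fin 4) : a ∉ half a j := by
  unfold half
  split_ifs <;> simp

theorem exists_half {a t : ℂ} (h : t ≠ a) : ∃ j, t ∈ half a j := by
  by_cases hre : t.re = a.re
  · have him : t.im ≠ a.im := fun h' => h (Complex.ext hre h')
    rcases lt_or_gt_of_ne him with h1 | h1
    · exact ⟨3, by simpa [half] using h1⟩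
    · exact ⟨2, by simpa [half] using h1⟩
  · rcases lt_or_gt_of_ne hre with h1 | h1
    · exact ⟨1, by simpa [half] using h1⟩
    · exact ⟨0, by simpa [half] using h1⟩

/-- sections over a convex open subset of `ℂ` on which `δ (t v) ≠ 0` -/
theorem exists_sections_convex {m k e : ℕ} {Y : Set (Fin m → ℂ)}
    {pr : (Fin m → ℂ) → (Fin k → ℂ)} {δ : MvPolynomial (Fin k) ℂ} (hC : Cov Y pr δ e)
    (v : Fin k → ℂ) {V : Set ℂ} (hV : IsOpen V) (hVc : Convex ℝ V)
    (h0 : ∀ t ∈ V, MvPolynomial.eval (t • v) δ ≠ 0) :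
    ∃ σ : Fin e → ℂ → (Fin m → ℂ), (∀ i, ContinuousOn (σ i) V) ∧
      ∀ t ∈ V, Function.Injective (fun i => σ i t) ∧
        {y | y ∈ Y ∧ pr y = t • v} = Set.range (fun i => σ i t) := by
  classical
  rcases V.eq_empty_or_nonempty with rfl | hne
  · exact ⟨fun _ _ => 0, fun i => continuousOn_empty _, by simp⟩
  have : ContractibleSpace V := hVc.contractibleSpace hne
  have : SimplyConnectedSpace V := inferInstance
  have : LocallyPathConnectedSpace V := hV.locallyPathConnectedSpace
  obtain ⟨σ, hσc, hσ⟩ := exists_sections hC (A := V) (fun t => t.1 • v)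
    (continuous_subtype_val.smul continuous_const) (fun t => h0 t.1 t.2)
  refine ⟨fun i t => if ht : t ∈ V then σ i ⟨t, ht⟩ else 0, ?_, ?_⟩
  · intro i
    rw [continuousOn_iff_continuous_domRestrict]
    convert! hσc i
    ext t
    simp [t.2]
  · intro t ht
    simp only [dif_pos ht]
    exact hσ ⟨t, ht⟩

theorem eval_line {k : ℕ} (δ : MvPolynomial (Fin k) ℂ) (v : Fin k → ℂ) (t : ℂ) :
    (MvPolynomial.aeval (fun i => Polynomial.C (v i) * Polynomial.X) δ : Polynomial ℂ).eval t =
      MvPolynomial.eval (t • v) δ := by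
  induction δ using MvPolynomial.induction_on with
  | C a => simp
  | add p q hp hq => simp [hp, hq]
  | mul_X p i hp =>
    simp only [map_mul, hp, MvPolynomial.aeval_X, MvPolynomial.eval_X, Polynomial.eval_mul,
      Polynomial.eval_C, Polynomial.eval_X, Pi.smul_apply, smul_eq_mul]
    ring

/-- the zero set of `t ↦ δ (t v)` is finite -/
theorem exists_roots_line {k : ℕ} (δ : MvPolynomial (Fin k) ℂ) (v : Fin k → ℂ)
    (h0 : MvPolynomial.eval (0 : Fin k → ℂ) δ ≠ 0) :
    ∃ F : Finset ℂ, ∀ t : ℂ, MvPolynomial.eval (t • v) δ = 0 ↔ t ∈ F := by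
  classical
  let p : Polynomial ℂ := MvPolynomial.aeval (fun i => Polynomial.C (v i) * Polynomial.X) δ
  have hp0 : p ≠ 0 := by
    intro h
    apply h0
    have := eval_line δ v 0
    rw [zero_smul] at this
    rw [← this]
    change p.eval 0 = 0
    rw [h]
    simp
  refine ⟨p.roots.toFinset, fun t => ?_⟩
  rw [Multiset.mem_toFinset, Polynomial.mem_roots hp0, Polynomial.IsRoot.def, eval_line δ v t]

theorem T7_main {m k e : ℕ} {Y : Set (Fin m → ℂ)} {pr : (Fin m → ℂ) → (Fin k → ℂ)}
    {δ : MvPolynomial (Fin k) ℂ} (hC : Cov Y pr δ e) (v : Fin k → ℂ) (hv : v ≠ 0) :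
    ∃ s : ℕ, FiniteRank (W489.LineP Y pr δ v) s := by
  classical
  -- the finite set of roots
  obtain ⟨j₀, hj₀⟩ : ∃ j, v j ≠ 0 := by
    by_contra hcon
    push Not at hcon
    exact hv (funext hcon)
  obtain ⟨F, hF⟩ := exists_roots_line δ v hC.base
  -- the convex cover
  let V : (F → Fin 4) → Set ℂ := fun f => ⋂ a : F, half a.1 (f a)
  have hVo : ∀ f, IsOpen (V f) := fun f => isOpen_iInter_of_finite fun a => isOpen_half _ _
  have hVc : ∀ f, Convex ℝ (V f) := fun f => convex_iInter fun a => convex_half _ _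
  have hV0 : ∀ f, ∀ t ∈ V f, MvPolynomial.eval (t • v) δ ≠ 0 := by
    intro f t ht h
    have h1 : t ∈ F := (hF t).1 h
    have h2 : t ∈ half t (f ⟨t, h1⟩) := mem_iInter.1 ht ⟨t, h1⟩
    exact notMem_half _ _ h2
  have hVcov : ∀ t : ℂ, MvPolynomial.eval (t • v) δ ≠ 0 → ∃ f, t ∈ V f := by
    intro t ht
    have h1 : ∀ a : F, ∃ j, t ∈ half a.1 j := by
      intro a
      refine exists_half ?_
      rintro rfl
      exact ht ((hF _).2 a.2)
    choose f hf using h1
    exact ⟨f, mem_iInter.2 hf⟩
  have hsec := fun f => exists_sections_convex hC v (hVo f) (hVc f) (hV0 f)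
  choose σ hσc hσ using hsec
  -- the coordinate on the line
  let τ : (Fin m → ℂ) → ℂ := fun y => pr y j₀ / v j₀
  have hτc : Continuous τ := ((continuous_apply j₀).comp hC.diff.continuous).div_const _
  have hτ : ∀ y (t : ℂ), pr y = t • v → τ y = t := by
    intro y t ht
    simp only [τ, ht, Pi.smul_apply, smul_eq_mul]
    rw [mul_div_assoc, div_self hj₀, mul_one]
  have hmem : ∀ f i, ∀ t ∈ V f, σ f i t ∈ Y ∧ pr (σ f i t) = t • v := by
    intro f i t ht
    have : σ f i t ∈ {y | y ∈ Y ∧ pr y = t • v} := by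
      rw [(hσ f t ht).2]
      exact ⟨i, rfl⟩
    exact this
  let P : (F → Fin 4) × Fin e → Set (Fin m → ℂ) := fun q => σ q.1 q.2 '' V q.1
  refine ⟨_, finiteRank_of_cover P ?_ ?_ ?_ ?_ ?_⟩
  · -- covering
    rintro y ⟨hyY, t, hyt, hδ⟩
    obtain ⟨f, hf⟩ := hVcov t hδ
    have h1 : y ∈ {y | y ∈ Y ∧ pr y = t • v} := ⟨hyY, hyt⟩
    rw [(hσ f t hf).2] at h1
    obtain ⟨i, hi⟩ := h1
    exact ⟨(f, i), t, hf, hi⟩
  · -- contained
    rintro ⟨f, i⟩ y ⟨t, ht, rfl⟩
    exact ⟨(hmem f i t ht).1, t, (hmem f i t ht).2, hV0 f t ht⟩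
  · -- relatively open
    rintro ⟨f, i⟩ y ⟨t, ht, hty⟩
    have ht' : t ∈ V f := ht
    have hτy : τ y = t := by
      rw [← hty]
      exact hτ _ t (hmem f i t ht').2
    have h1 : ∀ᶠ y' in 𝓝 y, τ y' ∈ V f :=
      hτc.continuousAt.eventually_mem ((hVo f).mem_nhds (by rw [hτy]; exact ht'))
    have h2 : ∀ i', i' ≠ i → ∀ᶠ y' in 𝓝 y, σ f i' (τ y') ≠ y' := by
      intro i' hi'
      have hcont : ContinuousAt (fun y' => σ f i' (τ y')) y := by
        have h3 : ContinuousAt (σ f i') (τ y) :=
          (hσc f i').continuousAt ((hVo f).mem_nhds (by rw [hτy]; exact ht'))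
        exact ContinuousAt.comp (f := τ) h3 hτc.continuousAt
      have hcont2 : ContinuousAt (fun y' => σ f i' (τ y') - y') y := hcont.sub continuousAt_id
      have hne : σ f i' (τ y) - y ≠ 0 := by
        intro h
        apply hi'
        apply (hσ f t ht').1
        simp only
        simp only at hty
        rw [hty, ← hτy]
        exact sub_eq_zero.1 h
      exact (hcont2.eventually_ne hne).mono fun y' hy' => sub_ne_zero.1 hy'
    have h3 : ∀ᶠ y' in 𝓝 y, ∀ i', i' ≠ i → σ f i' (τ y') ≠ y' := by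
      rw [Filter.eventually_all]
      intro i'
      by_cases hi' : i' = i
      · exact Filter.Eventually.of_forall fun _ h => absurd hi' h
      · exact (h2 i' hi').mono fun _ h _ => h
    rw [mem_nhdsWithin_iff_eventually]
    filter_upwards [h1, h3] with y' hy1 hy3 hy'
    obtain ⟨hyY', t', hyt', hδ'⟩ := hy'
    have hτ' : τ y' = t' := hτ y' t' hyt'
    rw [hτ'] at hy1 hy3
    have h4 : y' ∈ {y | y ∈ Y ∧ pr y = t' • v} := ⟨hyY', hyt'⟩
    rw [(hσ f t' hy1).2] at h4
    obtain ⟨i', hi'⟩ := h4
    have h5 : i' = i := by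
      by_contra hne
      exact hy3 i' hne hi'
    subst h5
    exact ⟨t', hy1, hi'⟩
  · -- logarithms
    rintro ⟨f, i⟩ g hg hg0
    rcases (V f).eq_empty_or_nonempty with he | hne
    · have : P (f, i) = ∅ := by simp [P, he]
      rw [this]
      exact ⟨fun _ => 0, continuousOn_empty _, by simp⟩
    have : ContractibleSpace (V f) := (hVc f).contractibleSpace hne
    have hsc : IsSimplyConnected (V f) := by
      unfold IsSimplyConnected
      infer_instance
    have hgc : ContinuousOn (fun t => g (σ f i t)) (V f) :=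
      hg.comp (hσc f i) (fun t ht => ⟨t, ht, rfl⟩)
    obtain ⟨h, hc, he⟩ := Complex.exists_continuousOn_eqOn_exp_comp hsc (hVo f) hgc (by
      rintro ⟨t, ht, h⟩
      exact hg0 _ ⟨t, ht, rfl⟩ h)
    have hτP : ∀ y ∈ P (f, i), τ y ∈ V f ∧ σ f i (τ y) = y := by
      rintro y ⟨t, ht, hty⟩
      have ht' : t ∈ V f := ht
      have : τ y = t := by
        rw [← hty]
        exact hτ _ t (hmem f i t ht').2
      rw [this]
      exact ⟨ht', hty⟩
    refine ⟨fun y => h (τ y), hc.comp hτc.continuousOn fun y hy => (hτP y hy).1, ?_⟩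
    intro y hy
    have := he (hτP y hy).1
    simp only [Function.comp_apply] at this
    rw [this, (hτP y hy).2]
  · -- intersections
    rintro ⟨f, i⟩ ⟨f', i'⟩
    have hW : IsPreconnected (V f ∩ V f') := ((hVc f).inter (hVc f')).isPreconnected
    rcases (P (f, i) ∩ P (f', i')).eq_empty_or_nonempty with he | ⟨y, ⟨t, ht, hty⟩, t', ht', hty'⟩
    · rw [he]
      exact isPreconnected_empty
    have ht1 : t ∈ V f := ht
    have ht1' : t' ∈ V f' := ht'
    have htt : t = t' := by
      have h1 := hτ _ t (hmem f i t ht1).2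
      have h2 := hτ _ t' (hmem f' i' t' ht1').2
      simp only at hty hty'
      rw [hty] at h1
      rw [hty'] at h2
      rw [← h1, ← h2]
    subst htt
    have : PreconnectedSpace (V f ∩ V f' : Set ℂ) := isPreconnected_iff_preconnectedSpace.1 hW
    have hall := idx_const (W := (V f ∩ V f' : Set ℂ)) (fun t => σ f i t.1)
      (fun j t => σ f' j t.1)
      ((hσc f i).comp_continuous continuous_subtype_val fun t => t.2.1)
      (fun j => (hσc f' j).comp_continuous continuous_subtype_val fun t => t.2.2)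
      (fun t => (hσ f' t.1 t.2.2).1)
      (fun t => by
        have h1 : σ f i t.1 ∈ {y | y ∈ Y ∧ pr y = t.1 • v} := hmem f i t.1 t.2.1
        rw [(hσ f' t.1 t.2.2).2] at h1
        exact h1) ⟨t, ht1, ht1'⟩ i' (by
        simp only at hty hty'
        rw [hty, hty'])
    have hPP : P (f, i) ∩ P (f', i') = σ f i '' (V f ∩ V f') := by
      ext y
      constructor
      · rintro ⟨⟨a, ha, hay⟩, b, hb, hby⟩
        have ha1 : a ∈ V f := ha
        have hb1 : b ∈ V f' := hb
        have hab : a = b := by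
          have h1 := hτ _ a (hmem f i a ha1).2
          have h2 := hτ _ b (hmem f' i' b hb1).2
          simp only at hay hby
          rw [hay] at h1
          rw [hby] at h2
          rw [← h1, ← h2]
        subst hab
        exact ⟨a, ⟨ha1, hb1⟩, hay⟩
      · rintro ⟨a, ⟨ha, hb⟩, hay⟩
        refine ⟨⟨a, ha, hay⟩, a, hb, ?_⟩
        have := hall ⟨a, ha, hb⟩
        simp only at this ⊢
        rw [this, hay]
    rw [hPP]
    exact hW.image _ ((hσc f i).mono inter_subset_left)

theorem T7 : W489.S_T7 := by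
  classical
  intro m k e Y pr δ hC v
  by_cases hv : v = 0
  · -- the fibre over `0`
    subst hv
    have hfin : (W489.LineP Y pr δ 0).Finite := by
      obtain ⟨r, hr, s, hs, hall⟩ := hC.sections 0 hC.base
      obtain ⟨-, -, hfib⟩ := hall 0 (mem_ball_self hr)
      refine (Set.finite_range (fun i => s i 0)).subset ?_
      rw [← hfib]
      rintro y ⟨hy, t, ht, -⟩
      exact ⟨hy, by simpa using ht⟩
    refine ⟨0, fun g hg hg0 => ⟨fun _ => 1, ?_, ?_⟩⟩
    · intro h
      simpa using congrFun h 0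
    · refine hasLog_of_finite hfin _ ?_
      intro y hy
      exact Finset.prod_ne_zero_iff.2 fun l _ => zpow_ne_zero _ (hg0 l y hy)
  · exact T7_main hC v hv

end Pool.Agent.W867
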