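import Pool.Agent.W489.Stubs

/-!
A good cover lemma: finite rank of continuous units modulo exponentials.
-/

set_option autoImplicit false

open Metric Set Topology

namespace Pool.Agent.W867

open H113G

/-- a linear map `ℤ^(s+1) → ℤ^κ` with `card κ ≤ s` has a nontrivial kernel -/
theorem exists_int_kernel {κ : Type} [Fintype κ] {s : ℕ} (hs : Fintype.card κ ≤ s)
    (n : Fin (s + 1) → κ → ℤ) :
    ∃ a : Fin (s + 1) → ℤ, a ≠ 0 ∧ ∀ k, ∑ l, a l * n l k = 0 := by
  classical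
  by_contra hcon
  push Not at hcon
  let f : (Fin (s + 1) → ℤ) →ₗ[ℤ] (κ → ℤ) :=
    { toFun := fun a k => ∑ l, a l * n l k
      map_add' := by
        intro a b
        ext k
        simp [add_mul, Finset.sum_add_distrib]
      map_smul' := by
        intro c a
        ext k
        simp [Finset.mul_sum, mul_assoc] }
  have hinj : Function.Injective f := by
    rw [← LinearMap.ker_eq_bot, LinearMap.ker_eq_bot']
    intro a ha
    by_contra h0
    obtain ⟨k, hk⟩ := hcon a h0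
    exact hk (congrFun ha k)
  have h1 := LinearMap.finrank_le_finrank_of_injective hinj
  simp at h1
  omega

theorem int_of_preconn {E : Type*} [TopologicalSpace E] {S : Set E} (hS : IsPreconnected S)
    {h₁ h₂ : E → ℂ} (c₁ : ContinuousOn h₁ S) (c₂ : ContinuousOn h₂ S)
    (he : ∀ y ∈ S, Complex.exp (h₁ y) = Complex.exp (h₂ y)) :
    ∃ n : ℤ, ∀ y ∈ S, h₁ y - h₂ y = n * (2 * Real.pi * Complex.I) := by
  classical
  rcases S.eq_empty_or_nonempty with rfl | ⟨y₀, hy₀⟩
  · exact ⟨0, by simp⟩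
  have key : ∀ y ∈ S, ∃ n : ℤ, h₁ y - h₂ y = n * (2 * Real.pi * Complex.I) := by
    intro y hy
    obtain ⟨n, hn⟩ := Complex.exp_eq_exp_iff_exists_int.1 (he y hy)
    exact ⟨n, by rw [hn]; ring⟩
  -- the real function  ((h₁ - h₂) / (2πi)).re
  have hpi : (2 * Real.pi * Complex.I : ℂ) ≠ 0 := Complex.two_pi_I_ne_zero
  let φ : E → ℝ := fun y => ((h₁ y - h₂ y) / (2 * Real.pi * Complex.I)).re
  have hφc : ContinuousOn φ S :=
    Complex.continuous_re.comp_continuousOn ((c₁.sub c₂).div_const _)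
  have hφ : ∀ y ∈ S, ∀ n : ℤ, h₁ y - h₂ y = n * (2 * Real.pi * Complex.I) → φ y = n := by
    intro y _ n hn
    simp only [φ, hn]
    rw [mul_div_assoc, div_self hpi, mul_one]
    simp
  obtain ⟨n₀, hn₀⟩ := key y₀ hy₀
  refine ⟨n₀, fun y hy => ?_⟩
  obtain ⟨n, hn⟩ := key y hy
  suffices n = n₀ by rw [hn, this]
  by_contra hne
  -- intermediate value: the image of S under φ is preconnected in ℝ and contained in ℤ
  have himg : IsPreconnected (φ '' S) := hS.image φ hφc
  have h1 : (n : ℝ) ∈ φ '' S := ⟨y, hy, hφ y hy n hn⟩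
  have h2 : (n₀ : ℝ) ∈ φ '' S := ⟨y₀, hy₀, hφ y₀ hy₀ n₀ hn₀⟩
  have hoc := himg.ordConnected
  have hint : ∀ x ∈ φ '' S, ∃ k : ℤ, x = k := by
    rintro x ⟨z, hz, rfl⟩
    obtain ⟨k, hk⟩ := key z hz
    exact ⟨k, hφ z hz k hk⟩
  rcases lt_or_gt_of_ne hne with hlt | hlt
  · have : ((n : ℝ) + 1 / 2) ∈ φ '' S := by
      refine hoc.out h1 h2 ⟨by linarith, ?_⟩
      have : (n : ℝ) + 1 ≤ n₀ := by exact_mod_cast hlt
      linarith
    obtain ⟨k, hk⟩ := hint _ this
    have : (2 * n + 1 : ℝ) = 2 * k := by linarith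
    have : (2 * n + 1 : ℤ) = 2 * k := by exact_mod_cast this
    omega
  · have : ((n₀ : ℝ) + 1 / 2) ∈ φ '' S := by
      refine hoc.out h2 h1 ⟨by linarith, ?_⟩
      have : (n₀ : ℝ) + 1 ≤ n := by exact_mod_cast hlt
      linarith
    obtain ⟨k, hk⟩ := hint _ this
    have : (2 * n₀ + 1 : ℝ) = 2 * k := by linarith
    have : (2 * n₀ + 1 : ℤ) = 2 * k := by exact_mod_cast this
    omega

/-- good cover lemma -/
theorem finiteRank_of_cover {E : Type*} [TopologicalSpace E] {A : Set E} {ι : Type} [Fintype ι]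
    (P : ι → Set E) (hcov : ∀ y ∈ A, ∃ i, y ∈ P i) (hsub : ∀ i, P i ⊆ A)
    (hop : ∀ i, ∀ y ∈ P i, P i ∈ 𝓝[A] y)
    (hlog : ∀ i, ∀ g : E → ℂ, ContinuousOn g (P i) → (∀ y ∈ P i, g y ≠ 0) → HasLog (P i) g)
    (hconn : ∀ i j, IsPreconnected (P i ∩ P j)) :
    FiniteRank A (Fintype.card (ι × ι)) := by
  classical
  intro g hg hg0
  have h1 : ∀ (l : Fin (Fintype.card (ι × ι) + 1)) (i : ι), HasLog (P i) (g l) := fun l i =>
    hlog i (g l) ((hg l).mono (hsub i)) (fun y hy => hg0 l y (hsub i hy))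
  choose h hc he using h1
  have h2 : ∀ (l : Fin (Fintype.card (ι × ι) + 1)) (p : ι × ι), ∃ n : ℤ,
      ∀ y ∈ P p.1 ∩ P p.2, h l p.1 y - h l p.2 y = n * (2 * Real.pi * Complex.I) := by
    intro l p
    refine int_of_preconn (hconn p.1 p.2) ((hc l p.1).mono inter_subset_left)
      ((hc l p.2).mono inter_subset_right) ?_
    intro y hy
    rw [he l p.1 y hy.1, he l p.2 y hy.2]
  choose n hn using h2
  obtain ⟨a, ha0, ha⟩ := exists_int_kernel le_rfl n
  refine ⟨a, ha0, ?_⟩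
  -- the glued logarithm
  have hglue : ∀ i j, ∀ y ∈ P i ∩ P j, ∑ l, (a l : ℂ) * h l i y = ∑ l, (a l : ℂ) * h l j y := by
    intro i j y hy
    rw [← sub_eq_zero, ← Finset.sum_sub_distrib]
    have h3 := ha (i, j)
    have h4 : (∑ l, (a l : ℂ) * (n l (i, j) : ℂ)) = 0 := by exact_mod_cast h3
    calc ∑ l, ((a l : ℂ) * h l i y - (a l : ℂ) * h l j y)
        = ∑ l, ((a l : ℂ) * (n l (i, j) : ℂ)) * (2 * Real.pi * Complex.I) := by
          refine Finset.sum_congr rfl fun l _ => ?_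
          rw [← mul_sub, hn l (i, j) y hy]
          ring
      _ = 0 := by rw [← Finset.sum_mul, h4, zero_mul]
  let H : E → ℂ := fun y => if hy : ∃ i, y ∈ P i then ∑ l, (a l : ℂ) * h l hy.choose y else 0
  have hH : ∀ i, ∀ y ∈ P i, H y = ∑ l, (a l : ℂ) * h l i y := by
    intro i y hy
    have hex : ∃ i, y ∈ P i := ⟨i, hy⟩
    simp only [H, dif_pos hex]
    exact hglue _ _ y ⟨hex.choose_spec, hy⟩
  refine ⟨H, ?_, ?_⟩
  · intro y hy
    obtain ⟨i, hi⟩ := hcov y hy
    have hN := hop i y hi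
    have hc1 : ContinuousWithinAt (fun y => ∑ l, (a l : ℂ) * h l i y) (P i) y := by
      have : ContinuousOn (fun y => ∑ l, (a l : ℂ) * h l i y) (P i) := by
        refine continuousOn_finsetSum _ fun l _ => ?_
        exact continuousOn_const.mul (hc l i)
      exact this y hi
    have hc2 : ContinuousWithinAt H (P i) y :=
      hc1.congr (fun z hz => hH i z hz) (hH i y hi)
    exact hc2.mono_of_mem_nhdsWithin hN
  · intro y hy
    obtain ⟨i, hi⟩ := hcov y hy
    rw [hH i y hi, Complex.exp_sum]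
    refine Finset.prod_congr rfl fun l _ => ?_
    rw [Complex.exp_int_mul, he l i y hi]

end Pool.Agent.W867
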